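import Pool.Agent.Q198.JN.Tree

set_option autoImplicit false

/-!
# Rademacher averages: from a tree to a weak-star null sequence
-/

namespace Pool.Agent.Q198.JN

open Finset Filter Topology

/-- Ultrafilter limits of bounded sequences of functionals. -/
theorem exists_ultralimit {W : Type*} [NormedAddCommGroup W] [NormedSpace ℝ W]
    (U : Ultrafilter ℕ) (g : ℕ → (W →L[ℝ] ℝ)) (R : ℝ) (hg : ∀ n, ‖g n‖ ≤ R) :
    ∃ G : W →L[ℝ] ℝ, ∀ w, Tendsto (fun n => g n w) U (𝓝 (G w)) := by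
  have hK := WeakDual.isCompact_closedBall (𝕜 := ℝ) (E := W) 0 R
  have h1 : ∀ n, StrongDual.toWeakDual (g n) ∈
      (WeakDual.toStrongDual ⁻¹' Metric.closedBall (0 : StrongDual ℝ W) R) := by
    intro n
    simpa using hg n
  have h2 := (isCompact_iff_ultrafilter_le_nhds.1 hK)
    (U.map (fun n => StrongDual.toWeakDual (g n))) (by
    rw [le_principal_iff]
    exact Filter.mem_map.2 (Filter.Eventually.of_forall h1))
  obtain ⟨G, -, hG⟩ := h2
  refine ⟨WeakDual.toStrongDual G, fun w => ?_⟩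
  have h3 : Tendsto (fun n => StrongDual.toWeakDual (g n)) U (𝓝 G) := hG
  exact ((WeakDual.eval_continuous w).tendsto G).comp h3

/-- Orthogonality of the coordinate functions on the cube. -/
theorem sum_sg_sg (N : ℕ) (n m : Fin N) (h : n ≠ m) :
    ∑ τ : Fin N → Bool, sg (τ n) * sg (τ m) = 0 := by
  classical
  let e : (Fin N → Bool) ≃ (Fin N → Bool) :=
    { toFun := fun τ => Function.update τ n (!τ n)
      invFun := fun τ => Function.update τ n (!τ n)
      left_inv := fun τ => by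
        ext j
        by_cases hj : j = n
        · subst hj; simp
        · simp [Function.update_of_ne hj]
      right_inv := fun τ => by
        ext j
        by_cases hj : j = n
        · subst hj; simp
        · simp [Function.update_of_ne hj] }
  have h1 : ∑ τ : Fin N → Bool, sg (τ n) * sg (τ m)
      = ∑ τ : Fin N → Bool, sg ((e τ) n) * sg ((e τ) m) :=
    (Equiv.sum_comp e (fun τ => sg (τ n) * sg (τ m))).symm
  have h2 : ∀ τ : Fin N → Bool, sg ((e τ) n) * sg ((e τ) m) = -(sg (τ n) * sg (τ m)) := by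
    intro τ
    have h3 : (e τ) n = !τ n := by simp [e]
    have h4 : (e τ) m = τ m := by simp [e, Function.update_of_ne h.symm]
    rw [h3, h4]
    cases τ n <;> cases τ m <;> simp [sg]
  simp only [h2, Finset.sum_neg_distrib] at h1
  linarith

/-- Finite Bessel inequality for the coordinate functions. -/
theorem bessel (N : ℕ) (f : (Fin N → Bool) → ℝ) (B : ℝ) (hf : ∀ τ, |f τ| ≤ B) :
    ∑ n : Fin N, (((2 : ℝ) ^ N)⁻¹ * ∑ τ : Fin N → Bool, sg (τ n) * f τ) ^ 2 ≤ B ^ 2 := by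
  classical
  set R : ℝ := (2 : ℝ) ^ N with hR
  have hR0 : 0 < R := by positivity
  have hcard : (Fintype.card (Fin N → Bool) : ℝ) = R := by simp [hR]
  set c : Fin N → ℝ := fun n => R⁻¹ * ∑ τ : Fin N → Bool, sg (τ n) * f τ with hc
  -- expand the square
  have h0 : 0 ≤ ∑ τ : Fin N → Bool, (f τ - ∑ n, c n * sg (τ n)) ^ 2 :=
    Finset.sum_nonneg fun _ _ => sq_nonneg _
  have h1 : ∑ τ : Fin N → Bool, (f τ - ∑ n, c n * sg (τ n)) ^ 2
      = ∑ τ : Fin N → Bool, (f τ) ^ 2 - 2 * ∑ τ : Fin N → Bool, f τ * ∑ n, c n * sg (τ n)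
        + ∑ τ : Fin N → Bool, (∑ n, c n * sg (τ n)) ^ 2 := by
    rw [Finset.mul_sum, ← Finset.sum_sub_distrib, ← Finset.sum_add_distrib]
    refine Finset.sum_congr rfl fun τ _ => ?_
    ring
  have h2 : ∑ τ : Fin N → Bool, f τ * ∑ n, c n * sg (τ n) = R * ∑ n, c n ^ 2 := by
    simp only [Finset.mul_sum]
    rw [Finset.sum_comm]
    refine Finset.sum_congr rfl fun n _ => ?_
    have h3 : ∀ τ : Fin N → Bool, f τ * (c n * sg (τ n)) = c n * (sg (τ n) * f τ) := fun τ => by ring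
    simp only [h3]
    rw [← Finset.mul_sum]
    have h4 : ∑ τ : Fin N → Bool, sg (τ n) * f τ = R * c n := by
      rw [hc]; simp only; rw [← mul_assoc, mul_inv_cancel₀ hR0.ne', one_mul]
    rw [h4]; ring
  have h5 : ∑ τ : Fin N → Bool, (∑ n, c n * sg (τ n)) ^ 2 = R * ∑ n, c n ^ 2 := by
    have h6 : ∀ τ : Fin N → Bool, (∑ n, c n * sg (τ n)) ^ 2
        = ∑ n, ∑ m, (c n * c m) * (sg (τ n) * sg (τ m)) := by
      intro τ
      rw [sq, Finset.sum_mul_sum]
      refine Finset.sum_congr rfl fun n _ => Finset.sum_congr rfl fun m _ => ?_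
      ring
    simp only [h6]
    rw [Finset.sum_comm, Finset.mul_sum]
    refine Finset.sum_congr rfl fun n _ => ?_
    rw [Finset.sum_comm, Finset.sum_eq_single n]
    · rw [← Finset.mul_sum]
      have h7 : ∑ τ : Fin N → Bool, sg (τ n) * sg (τ n) = R := by
        simp only [sg_sq]
        rw [Finset.sum_const, Finset.card_univ, nsmul_eq_mul, mul_one, hcard]
      rw [h7]; ring
    · intro m _ hm
      rw [← Finset.mul_sum, sum_sg_sg N n m hm.symm, mul_zero]
    · intro h; exact absurd (Finset.mem_univ n) h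
  have h8 : ∑ τ : Fin N → Bool, (f τ) ^ 2 ≤ R * B ^ 2 := by
    rw [← hcard, ← nsmul_eq_mul, ← Finset.card_univ, ← Finset.sum_const]
    refine Finset.sum_le_sum fun τ _ => ?_
    rw [← sq_abs]
    exact pow_le_pow_left₀ (abs_nonneg _) (hf τ) 2
  rw [h1, h2, h5] at h0
  have h9 : R * ∑ n, c n ^ 2 ≤ R * B ^ 2 := by linarith
  exact le_of_mul_le_mul_left h9 hR0

/-- From sign patterns to a weak-star null sequence. -/
theorem average {E : Type*} [NormedAddCommGroup E] [NormedSpace ℝ E] (x : ℕ → E)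
    (κ : ℝ)
    (h : ∀ (N : ℕ) (σ : ℕ → Bool), ∃ φ : E →L[ℝ] ℝ, ‖φ‖ ≤ 1 ∧ ∀ j, j < N → κ ≤ sg (σ j) * φ (x j)) :
    ∃ H : ℕ → (E →L[ℝ] ℝ), (∀ n, κ ≤ H n (x n)) ∧ ∀ y, Tendsto (fun n => H n y) atTop (𝓝 0) := by
  classical
  choose φ hφ1 hφ2 using h
  let ext : (N : ℕ) → (Fin N → Bool) → (ℕ → Bool) :=
    fun N τ j => if h : j < N then τ ⟨j, h⟩ else true
  let ψ : (N : ℕ) → (Fin N → Bool) → (E →L[ℝ] ℝ) := fun N τ => φ N (ext N τ)
  have hψ1 : ∀ N τ, ‖ψ N τ‖ ≤ 1 := fun N τ => hφ1 _ _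
  have hψ2 : ∀ (N : ℕ) (τ : Fin N → Bool) (n : Fin N), κ ≤ sg (τ n) * ψ N τ (x n) := by
    intro N τ n
    have h1 := hφ2 N (ext N τ) n n.2
    have h2 : ext N τ n = τ n := by simp only [ext, dif_pos n.2]
    rwa [h2] at h1
  let A : ℕ → ℕ → (E →L[ℝ] ℝ) := fun N n =>
    if h : n < N then (((2 : ℝ) ^ N)⁻¹) • ∑ τ : Fin N → Bool, sg (τ ⟨n, h⟩) • ψ N τ else 0
  have hA : ∀ (N n : ℕ) (h : n < N) (y : E),
      A N n y = ((2 : ℝ) ^ N)⁻¹ * ∑ τ : Fin N → Bool, sg (τ ⟨n, h⟩) * ψ N τ y := by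
    intro N n h y
    simp only [A, dif_pos h, smul_apply, smul_eq_mul, _root_.sum_apply]
  have hcard : ∀ N : ℕ, (Fintype.card (Fin N → Bool) : ℝ) = (2 : ℝ) ^ N := fun N => by simp
  have hAn : ∀ n N, ‖A N n‖ ≤ 1 := by
    intro n N
    by_cases h : n < N
    · simp only [A, dif_pos h]
      rw [norm_smul, norm_inv, Real.norm_of_nonneg (by positivity)]
      have h1 : ‖∑ τ : Fin N → Bool, sg (τ ⟨n, h⟩) • ψ N τ‖ ≤ (2 : ℝ) ^ N := by
        refine (norm_sum_le _ _).trans ?_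
        rw [← hcard N, ← mul_one (Fintype.card (Fin N → Bool) : ℝ), ← nsmul_eq_mul,
          ← Finset.card_univ, ← Finset.sum_const]
        refine Finset.sum_le_sum fun τ _ => ?_
        rw [norm_smul, Real.norm_eq_abs, sg_abs, one_mul]
        exact hψ1 N τ
      rw [inv_mul_le_one₀ (by positivity)]
      exact h1
    · simp only [A, dif_neg h, norm_zero]; norm_num
  let U : Ultrafilter ℕ := hyperfilter ℕ
  have hUle : (U : Filter ℕ) ≤ atTop := by
    rw [← Nat.cofinite_eq_atTop]; exact hyperfilter_le_cofinite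
  have hlim : ∀ n, ∃ G : E →L[ℝ] ℝ, ∀ w, Tendsto (fun N => A N n w) U (𝓝 (G w)) := fun n =>
    exists_ultralimit U (fun N => A N n) 1 (hAn n)
  choose H hH using hlim
  refine ⟨H, fun n => ?_, fun y => ?_⟩
  · refine ge_of_tendsto (hH n (x n)) ?_
    have hev : ∀ᶠ N in (U : Filter ℕ), n < N := hUle (eventually_gt_atTop n)
    filter_upwards [hev] with N hN
    rw [hA N n hN]
    have h1 : (2 : ℝ) ^ N * κ ≤ ∑ τ : Fin N → Bool, sg (τ ⟨n, hN⟩) * ψ N τ (x n) := by
      rw [← hcard N, ← nsmul_eq_mul, ← Finset.card_univ, ← Finset.sum_const]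
      exact Finset.sum_le_sum fun τ _ => hψ2 N τ ⟨n, hN⟩
    rw [inv_mul_eq_div, le_div_iff₀ (by positivity)]
    linarith
  · -- Bessel
    have hB : ∀ m : ℕ, ∑ n ∈ range m, (H n y) ^ 2 ≤ ‖y‖ ^ 2 := by
      intro m
      have h1 : Tendsto (fun N => ∑ n ∈ range m, (A N n y) ^ 2) U
          (𝓝 (∑ n ∈ range m, (H n y) ^ 2)) :=
        tendsto_finsetSum _ fun n _ => (hH n y).pow 2
      refine le_of_tendsto h1 ?_
      have hev : ∀ᶠ N in (U : Filter ℕ), m ≤ N := hUle (eventually_ge_atTop m)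
      filter_upwards [hev] with N hN
      have h2 := bessel N (fun τ => ψ N τ y) ‖y‖ (fun τ => by
        have := (ψ N τ).le_opNorm y
        have h3 := hψ1 N τ
        rw [Real.norm_eq_abs] at this
        nlinarith [norm_nonneg y])
      refine le_trans ?_ h2
      have h3 : ∑ n ∈ range m, (A N n y) ^ 2 ≤ ∑ n ∈ range N, (A N n y) ^ 2 :=
        Finset.sum_le_sum_of_subset_of_nonneg (Finset.range_mono hN) fun _ _ _ => sq_nonneg _
      refine h3.trans (le_of_eq ?_)
      rw [Finset.sum_range]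
      refine Finset.sum_congr rfl fun n _ => ?_
      rw [hA N n n.2]
    have hsum : Summable fun n => (H n y) ^ 2 :=
      summable_of_sum_range_le (fun n => sq_nonneg _) hB
    have h4 := hsum.tendsto_atTop_zero
    have h5 : Tendsto (fun n => Real.sqrt ((H n y) ^ 2)) atTop (𝓝 (Real.sqrt 0)) :=
      (Real.continuous_sqrt.tendsto 0).comp h4
    rw [Real.sqrt_zero] at h5
    refine (tendsto_zero_iff_abs_tendsto_zero _).2 (h5.congr fun n => ?_)
    rw [Real.sqrt_sq_eq_abs]; rfl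

end Pool.Agent.Q198.JN
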