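import Pool.Agent.Helper902.NAStab

set_option autoImplicit false

/-!
# Block vectors in `c₀₀` and stable block subspaces
-/

namespace Pool.Agent.Q198.JN

open Finset Pool.Agent.Helper902.NA

/-- Successive block vectors with prescribed properties. -/
theorem exists_blocks (P : ℕ → (ℕ →₀ ℝ) → Prop) (h : ∀ k M, ∃ v, st_tl M v ∧ P k v) :
    ∃ (v : ℕ → (ℕ →₀ ℝ)) (L : ℕ → ℕ), (∀ j, P j (v j)) ∧ (∀ j, st_tl (L j) (v j)) ∧
      (∀ j, st_hd (L (j + 1)) (v j)) ∧ (∀ j, L j < L (j + 1)) := by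
  choose f hf1 hf2 using h
  choose g hg using st_exists_hd
  let L : ℕ → ℕ := fun j => Nat.rec 0 (fun k l => max (l + 1) (g (f k l))) j
  have hL : ∀ j, L (j + 1) = max (L j + 1) (g (f j (L j))) := fun j => rfl
  refine ⟨fun j => f j (L j), L, fun j => hf2 _ _, fun j => hf1 _ _, fun j => ?_, fun j => ?_⟩
  · apply st_hd_mono _ (hg _)
    rw [hL]
    exact le_max_right _ _
  · rw [hL]
    exact lt_of_lt_of_le (Nat.lt_succ_self _) (le_max_left _ _)

section blocks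

variable {v : ℕ → (ℕ →₀ ℝ)} {L : ℕ → ℕ}

theorem L_mono (h3 : ∀ j, L j < L (j + 1)) : StrictMono L := strictMono_nat_of_lt_succ h3

/-- Coordinates of a sum of blocks. -/
theorem sum_apply_block (h1 : ∀ j, st_tl (L j) (v j)) (h2 : ∀ j, st_hd (L (j + 1)) (v j))
    (h3 : ∀ j, L j < L (j + 1)) (n : ℕ) (b : ℕ → ℝ) (k : ℕ) (hk : k < n) (i : ℕ)
    (hi : L k ≤ i) (hi2 : i < L (k + 1)) : (∑ j ∈ range n, b j • v j) i = b k * v k i := by
  rw [Finsupp.finsetSum_apply, Finset.sum_eq_single k]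
  · rw [Finsupp.smul_apply, smul_eq_mul]
  · intro j _ hjk
    rw [Finsupp.smul_apply, smul_eq_mul]
    rcases lt_or_gt_of_ne hjk with h | h
    · rw [h2 j i (le_trans ((L_mono h3).monotone (Nat.succ_le_of_lt h)) hi), mul_zero]
    · rw [h1 j i (lt_of_lt_of_le hi2 ((L_mono h3).monotone (Nat.succ_le_of_lt h))), mul_zero]
  · intro h
    exact absurd (Finset.mem_range.2 hk) h

/-- If a combination of blocks is a tail vector, its first coefficients vanish. -/
theorem coeff_zero (h1 : ∀ j, st_tl (L j) (v j)) (h2 : ∀ j, st_hd (L (j + 1)) (v j))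
    (h3 : ∀ j, L j < L (j + 1)) (hq : ∀ j, st_q (v j) = 1) (n : ℕ) (b : ℕ → ℝ) (j : ℕ)
    (ht : st_tl (L j) (∑ j ∈ range n, b j • v j)) (k : ℕ) (hk : k < n) (hkj : k < j) : b k = 0 := by
  -- a nonzero coordinate of `v k`
  obtain ⟨i, hi⟩ : ∃ i, v k i ≠ 0 := by
    by_contra hcon
    push Not at hcon
    have : v k = 0 := by ext i; exact hcon i
    have h := hq k
    rw [this] at h
    simp [st_q] at h
  have hiL : L k ≤ i := by
    by_contra hcon
    push Not at hcon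
    exact hi (h1 k i hcon)
  have hiL2 : i < L (k + 1) := by
    by_contra hcon
    push Not at hcon
    exact hi (h2 k i hcon)
  have h4 := ht i (lt_of_lt_of_le hiL2 ((L_mono h3).monotone (Nat.succ_le_of_lt hkj)))
  rw [sum_apply_block h1 h2 h3 n b k hk i hiL hiL2] at h4
  rcases mul_eq_zero.1 h4 with h5 | h5
  · exact h5
  · exact absurd h5 hi

end blocks

/-- `W'` is contained in `W` up to a finite number of coordinates. -/
def Sub (W' W : Submodule ℝ (ℕ →₀ ℝ)) : Prop := ∃ M, ∀ v ∈ W', st_tl M v → v ∈ W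

theorem Sub.refl (W : Submodule ℝ (ℕ →₀ ℝ)) : Sub W W := ⟨0, fun _ h _ => h⟩

theorem Sub.trans {W₁ W₂ W₃ : Submodule ℝ (ℕ →₀ ℝ)} (h : Sub W₁ W₂) (h' : Sub W₂ W₃) :
    Sub W₁ W₃ := by
  obtain ⟨M, hM⟩ := h
  obtain ⟨M', hM'⟩ := h'
  refine ⟨max M M', fun v hv ht => ?_⟩
  exact hM' v (hM v hv (st_tl_mono (le_max_left _ _) ht)) (st_tl_mono (le_max_right _ _) ht)

/-- A stability principle for monotone functions on `σ`-closed preorders. -/
theorem stable {P : Type*} (le : P → P → Prop) (hrefl : ∀ u, le u u)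
    (htrans : ∀ u v w, le u v → le v w → le u w)
    (hseq : ∀ u : ℕ → P, (∀ n, le (u (n + 1)) (u n)) → ∃ w, ∀ n, le w (u n))
    (f : P → ℝ) (hf : ∀ u v, le u v → f u ≤ f v) (hb : ∀ u, 0 ≤ f u) (u₀ : P) :
    ∃ u, le u u₀ ∧ ∀ w, le w u → f w = f u := by
  have hstep : ∀ (u : P) (n : ℕ), ∃ v, le v u ∧ ∀ w, le w u → f v ≤ f w + (1 / 2 : ℝ) ^ n := by
    intro u n
    set S : Set ℝ := {t | ∃ w, le w u ∧ t = f w} with hS
    have hne : S.Nonempty := ⟨f u, u, hrefl u, rfl⟩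
    have hpos : (0 : ℝ) < (1 / 2 : ℝ) ^ n := by positivity
    obtain ⟨_, ⟨v, hv, rfl⟩, hlt⟩ := exists_lt_of_csInf_lt hne
      (show sInf S < sInf S + (1 / 2 : ℝ) ^ n by linarith)
    refine ⟨v, hv, fun w hw => ?_⟩
    have : sInf S ≤ f w := csInf_le ⟨0, by rintro _ ⟨w, -, rfl⟩; exact hb w⟩ ⟨w, hw, rfl⟩
    linarith
  choose nx hn1 hn2 using hstep
  let u : ℕ → P := fun n => Nat.rec u₀ (fun k w => nx w k) n
  have hu : ∀ n, u (n + 1) = nx (u n) n := fun n => rfl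
  obtain ⟨w, hw⟩ := hseq u (fun n => by rw [hu]; exact hn1 _ _)
  refine ⟨w, hw 0, fun z hz => ?_⟩
  apply le_antisymm (hf _ _ hz)
  have h1 : ∀ n : ℕ, f w ≤ f z + (1 / 2 : ℝ) ^ n := by
    intro n
    have h2 := hf _ _ (hw (n + 1))
    rw [hu] at h2
    exact h2.trans (hn2 _ n z (htrans _ _ _ hz (hw n)))
  have h3 : Filter.Tendsto (fun n : ℕ => f z + (1 / 2 : ℝ) ^ n) Filter.atTop (nhds (f z + 0)) :=
    tendsto_const_nhds.add (tendsto_pow_atTop_nhds_zero_of_lt_one (by norm_num) (by norm_num))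
  rw [add_zero] at h3
  exact ge_of_tendsto' h3 h1

/-- Big subspaces form a `σ`-closed preorder. -/
theorem big_seq (W : ℕ → Submodule ℝ (ℕ →₀ ℝ)) (hW : ∀ n, st_Big (W n))
    (hs : ∀ n, Sub (W (n + 1)) (W n)) : ∃ V, st_Big V ∧ ∀ n, Sub V (W n) := by
  -- thresholds
  have hsub : ∀ k j, Sub (W (j + k)) (W j) := by
    intro k
    induction k with
    | zero => exact fun j => Sub.refl _
    | succ k ih => exact fun j => (hs (j + k)).trans (ih j)
  have hsub' : ∀ k j, j ≤ k → Sub (W k) (W j) := by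
    intro k j hjk
    obtain ⟨m, rfl⟩ := Nat.exists_eq_add_of_le hjk
    exact hsub m j
  choose! th hth using hsub'
  have hP : ∀ k M, ∃ v : ℕ →₀ ℝ, st_tl M v ∧ (st_q v = 1 ∧ ∀ j, j ≤ k → v ∈ W j) := by
    intro k M
    obtain ⟨v, hv, ht, hq⟩ := hW k (max M (∑ j ∈ range (k + 1), th k j))
    refine ⟨v, st_tl_mono (le_max_left _ _) ht, hq, fun j hj => ?_⟩
    apply hth k j hj v hv
    apply st_tl_mono _ ht
    refine le_trans ?_ (le_max_right _ _)
    exact Finset.single_le_sum (f := fun j => th k j) (fun _ _ => Nat.zero_le _)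
      (Finset.mem_range.2 (Nat.lt_succ_of_le hj))
  obtain ⟨v, L, hv, h1, h2, h3⟩ := exists_blocks
    (fun k v => st_q v = 1 ∧ ∀ j, j ≤ k → v ∈ W j) hP
  refine ⟨Submodule.span ℝ (Set.range v), fun M => ?_, fun n => ?_⟩
  · refine ⟨v M, Submodule.subset_span ⟨M, rfl⟩, ?_, (hv M).1⟩
    exact st_tl_mono ((L_mono h3).id_le M) (h1 M)
  · refine ⟨L n, fun w hw ht => ?_⟩
    obtain ⟨N, b, rfl⟩ := st_mem_span hw
    apply Submodule.sum_mem
    intro k hk
    rcases lt_or_ge k n with h | h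
    · rw [coeff_zero h1 h2 h3 (fun j => (hv j).1) N b n ht k (Finset.mem_range.1 hk) h, zero_smul]
      exact Submodule.zero_mem _
    · exact Submodule.smul_mem _ _ ((hv k).2 n h)

end Pool.Agent.Q198.JN
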