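import Pool.Agent.Q198.JN.Average
import Pool.Agent.Helper902.NARos

set_option autoImplicit false

/-!
# The Josefson-Nissenzweig theorem
-/

namespace Pool.Agent.Q198.JN

open Finset Filter Topology Pool.Agent.Helper902.NA

section real

variable {E : Type*} [NormedAddCommGroup E] [NormedSpace ℝ E]

/-- Either no subsequence has a pointwise convergent subsequence because of a uniform oscillation,
or there is a pointwise convergent subsequence. -/
theorem dichotomy (g : ℕ → (E →L[ℝ] ℝ)) (R : ℝ) (hg : ∀ n, ‖g n‖ ≤ R) :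
    (∃ (r s : ℝ) (_ : r < s) (φ : ℕ → ℕ), StrictMono φ ∧ ∀ (m : ℕ) (F : Set ℕ), ∃ y : E, ‖y‖ ≤ 1 ∧
      ∀ j < m, (j ∈ F → g (φ j) y < r) ∧ (j ∉ F → s < g (φ j) y)) ∨
    (∃ φ : ℕ → ℕ, StrictMono φ ∧ ∀ y : E, ‖y‖ ≤ 1 →
      ∃ c : ℝ, Tendsto (fun n => g (φ n) y) atTop (𝓝 c)) := by
  classical
  by_cases h : ∃ (r s : ℚ) (_ : r < s) (M₀ : Set ℕ), M₀.Infinite ∧ ∀ M ⊆ M₀, M.Infinite →
      ∃ y : {y : E // ‖y‖ ≤ 1}, {n | n ∈ M ∧ g n y < r}.Infinite ∧
        {n | n ∈ M ∧ (s : ℝ) < g n y}.Infinite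
  · obtain ⟨r, s, hrs, M₀, hM₀, hosc⟩ := h
    left
    obtain ⟨φ, hφ, -, hind⟩ := rosenthal_independent
      (fun n => {y : {y : E // ‖y‖ ≤ 1} | g n y < r}) (fun n => {y | (s : ℝ) < g n y}) M₀ hM₀ hosc
    refine ⟨r, s, by exact_mod_cast hrs, φ, hφ, fun m F => ?_⟩
    obtain ⟨y, hy⟩ := hind m F
    exact ⟨y, y.2, fun j hj => hy j hj⟩
  · push Not at h
    right
    -- enumeration of the pairs
    obtain ⟨p, hp⟩ : ∃ p : ℕ → ℚ × ℚ, Function.Surjective p := exists_surjective_nat _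
    have hstep : ∀ (k : ℕ) (M : {M : Set ℕ // M.Infinite}), ∃ M' : {M : Set ℕ // M.Infinite},
        M'.1 ⊆ M.1 ∧ ((p k).1 < (p k).2 → ∀ y : E, ‖y‖ ≤ 1 →
          {n | n ∈ M'.1 ∧ g n y < (p k).1}.Infinite →
            ¬ {n | n ∈ M'.1 ∧ ((p k).2 : ℝ) < g n y}.Infinite) := by
      intro k M
      by_cases hk : (p k).1 < (p k).2
      · obtain ⟨M', h1, h2, h3⟩ := h (p k).1 (p k).2 hk M.1 M.2
        refine ⟨⟨M', h2⟩, h1, fun _ y hy hi => ?_⟩
        exact fun hinf => hinf (h3 ⟨y, hy⟩ hi)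
      · exact ⟨M, subset_rfl, fun h => absurd h hk⟩
    choose nx hn1 hn2 using hstep
    let q : ℕ → {M : Set ℕ // M.Infinite} := fun k =>
      Nat.rec ⟨Set.univ, Set.infinite_univ⟩ (fun k M => nx k M) k
    have hq : ∀ k, q (k + 1) = nx k (q k) := fun k => rfl
    have hanti : ∀ i j, i ≤ j → (q j).1 ⊆ (q i).1 := by
      intro i j hij
      induction hij with
      | refl => exact subset_rfl
      | step _ ih => exact (hn1 _ _).trans ih
    -- diagonal sequence
    have hex : ∀ k N : ℕ, ∃ n ∈ (q k).1, N < n := by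
      intro k N
      exact (q k).2.exists_gt N
    choose nn hnn1 hnn2 using hex
    let φ : ℕ → ℕ := fun k => Nat.rec (nn 0 0) (fun k l => nn (k + 1) l) k
    have hφ : ∀ k, φ (k + 1) = nn (k + 1) (φ k) := fun k => rfl
    have hφm : StrictMono φ := strictMono_nat_of_lt_succ fun k => by
      rw [hφ]; exact hnn2 _ _
    have hφq : ∀ k, φ k ∈ (q k).1 := by
      intro k
      cases k with
      | zero => exact hnn1 0 0
      | succ k => rw [hφ]; exact hnn1 (k + 1) (φ k)
    refine ⟨φ, hφm, fun y hy => ?_⟩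
    have hbd : ∀ n, |g (φ n) y| ≤ R := by
      intro n
      have h1 := (g (φ n)).le_opNorm y
      rw [Real.norm_eq_abs] at h1
      have h2 := hg (φ n)
      nlinarith [norm_nonneg (g (φ n)), norm_nonneg y]
    refine tendsto_of_no_upcrossings (s := Set.range ((↑) : ℚ → ℝ)) Rat.denseRange_cast ?_
      ⟨R, Filter.eventually_map.2 (Filter.Eventually.of_forall fun n => (abs_le.1 (hbd n)).2)⟩
      ⟨-R, Filter.eventually_map.2 (Filter.Eventually.of_forall fun n => (abs_le.1 (hbd n)).1)⟩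
    · rintro _ ⟨a, rfl⟩ _ ⟨b, rfl⟩ hab ⟨h1, h2⟩
      obtain ⟨k, hk⟩ := hp (a, b)
      have hab' : a < b := by exact_mod_cast hab
      have htr : ∀ P : ℕ → Prop, (∃ᶠ n in atTop, P (φ n)) →
          {n | n ∈ (q (k + 1)).1 ∧ P n}.Infinite := by
        intro P hP
        refine Set.infinite_of_forall_exists_gt fun N => ?_
        obtain ⟨m, hm, hPm⟩ := (Filter.frequently_atTop.1 hP) (max (k + 1) (N + 1))
        refine ⟨φ m, ⟨hanti _ _ ((le_max_left _ _).trans hm) (hφq m), hPm⟩, ?_⟩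
        have : m ≤ φ m := hφm.id_le m
        have := (le_max_right (k + 1) (N + 1)).trans hm
        omega
      have h3 := htr (fun n => g n y < a) h1
      have h4 := htr (fun n => (b : ℝ) < g n y) h2
      have h5 := hn2 k (q k) (by rw [hk]; exact hab') y hy
      rw [← hq, hk] at h5
      exact h5 h3 h4

/-- Weak-star null sequences bounded below can be normalized. -/
theorem normalize (d : ℕ → (E →L[ℝ] ℝ)) (κ : ℝ) (hκ : 0 < κ) (hd : ∀ n, κ ≤ ‖d n‖)
    (h0 : ∀ y, Tendsto (fun n => d n y) atTop (𝓝 0)) :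
    ∃ h : ℕ → (E →L[ℝ] ℝ), (∀ n, ‖h n‖ = 1) ∧ ∀ y, Tendsto (fun n => h n y) atTop (𝓝 0) := by
  have hpos : ∀ n, 0 < ‖d n‖ := fun n => hκ.trans_le (hd n)
  refine ⟨fun n => ‖d n‖⁻¹ • d n, fun n => ?_, fun y => ?_⟩
  · rw [norm_smul, norm_inv, norm_norm, inv_mul_cancel₀ (hpos n).ne']
  · have h1 : Tendsto (fun n => κ⁻¹ * |d n y|) atTop (𝓝 0) := by
      have := ((h0 y).abs).const_mul κ⁻¹
      simpa using this
    refine squeeze_zero_norm (fun n => ?_) h1
    rw [smul_apply, norm_smul, norm_inv, norm_norm, Real.norm_eq_abs]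
    exact mul_le_mul_of_nonneg_right (inv_anti₀ hκ (hd n)) (abs_nonneg _)

theorem extend_ball (d : ℕ → (E →L[ℝ] ℝ))
    (h0 : ∀ y, ‖y‖ ≤ 1 → Tendsto (fun n => d n y) atTop (𝓝 0)) (x : E) :
    Tendsto (fun n => d n x) atTop (𝓝 0) := by
  have h1 := (h0 ((‖x‖ + 1)⁻¹ • x) (by
    rw [norm_smul, norm_inv, Real.norm_of_nonneg (by positivity), inv_mul_le_one₀ (by positivity)]
    linarith)).const_mul (‖x‖ + 1)
  rw [mul_zero] at h1
  refine h1.congr fun n => ?_
  rw [map_smul, smul_eq_mul, ← mul_assoc, mul_inv_cancel₀ (by positivity), one_mul]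

/-- The dual of an infinite-dimensional space is infinite-dimensional. -/
theorem dual_infinite (h : ¬ FiniteDimensional ℝ E) : ¬ FiniteDimensional ℝ (E →L[ℝ] ℝ) := by
  intro hfin
  apply h
  have h1 : FiniteDimensional ℝ ((E →L[ℝ] ℝ) →L[ℝ] ℝ) := by
    have : FiniteDimensional ℝ ((E →L[ℝ] ℝ) →ₗ[ℝ] ℝ) := inferInstance
    exact FiniteDimensional.of_injective (ContinuousLinearMap.coeLM ℝ)
      ContinuousLinearMap.coe_injective
  exact FiniteDimensional.of_injective
    (NormedSpace.inclusionInDoubleDualLi (𝕜 := ℝ) (E := E)).toLinearMap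
    (NormedSpace.inclusionInDoubleDualLi (𝕜 := ℝ) (E := E)).injective

/-- The Josefson-Nissenzweig theorem, real scalars. -/
theorem jn_real (h : ¬ FiniteDimensional ℝ E) :
    ∃ h : ℕ → (E →L[ℝ] ℝ), (∀ n, ‖h n‖ = 1) ∧ ∀ y, Tendsto (fun n => h n y) atTop (𝓝 0) := by
  classical
  obtain ⟨R, g, hR, hgR, hsep⟩ := exists_seq_norm_le_one_le_norm_sub (𝕜 := ℝ) (dual_infinite h)
  have hR0 : 0 < R := by linarith
  rcases dichotomy g R hgR with ⟨r, s, hrs, φ, hφ, hind⟩ | ⟨φ, hφ, hconv⟩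
  · -- a subsequence equivalent to the basis of `ℓ₁`
    let Φ : (ℕ →₀ ℝ) →ₗ[ℝ] (E →L[ℝ] ℝ) := Finsupp.linearCombination ℝ (fun j => g (φ j))
    have hΦ : ∀ v, ‖Φ v‖ ≤ R * st_q v := by
      intro v
      simp only [Φ, Finsupp.linearCombination_apply, Finsupp.sum, st_q]
      rw [Finset.mul_sum]
      refine norm_sum_le_of_le _ fun i _ => ?_
      rw [norm_smul, Real.norm_eq_abs, mul_comm]
      exact mul_le_mul_of_nonneg_right (hgR _) (abs_nonneg _)
    obtain ⟨W, hW, hst⟩ := exists_stable hΦ hR0.le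
    rcases (dl_nonneg (Φ := Φ) W).eq_or_lt with h0 | h0
    · obtain ⟨v, hv, hv0⟩ := null_of_dl_zero hΦ hR0.le W hW h0.symm
      refine normalize (fun n => Φ (v n)) ((s - r) / 2) (by linarith) (fun n => ?_) hv0
      -- lower estimate
      obtain ⟨M, hM⟩ := st_exists_hd (v n)
      obtain ⟨y, hy, hy'⟩ := hind M {j | v n j < 0}
      obtain ⟨z, hz, hz'⟩ := hind M {j | 0 ≤ v n j}
      have h1 : st_q (v n) = ∑ i ∈ range M, |v n i| := st_q_eq hM
      have h2 : ∀ w, Φ (v n) w = ∑ i ∈ range M, v n i * g (φ i) w := by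
        intro w
        simp only [Φ, Finsupp.linearCombination_apply, Finsupp.sum]
        rw [_root_.sum_apply]
        have hsub : (v n).support ⊆ range M := by
          intro i hi
          rw [Finset.mem_range]
          by_contra hcon
          exact (Finsupp.mem_support_iff.1 hi) (hM i (not_lt.1 hcon))
        rw [Finset.sum_subset hsub]
        · refine Finset.sum_congr rfl fun i _ => ?_
          rw [smul_apply, smul_eq_mul]
        · intro i _ hi
          rw [Finsupp.notMem_support_iff.1 hi]; simp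
      have h3 : (s - r) * st_q (v n) ≤ Φ (v n) (y - z) := by
        rw [map_sub, h2, h2, h1, ← Finset.sum_sub_distrib, Finset.mul_sum]
        refine Finset.sum_le_sum fun i hi => ?_
        have hi' := Finset.mem_range.1 hi
        rcases lt_or_ge (v n i) 0 with hneg | hpos
        · have h4 := (hy' i hi').1 hneg
          have h5 := (hz' i hi').2 (by simpa using hneg)
          rw [abs_of_neg hneg]
          nlinarith
        · have h4 := (hy' i hi').2 (by simpa using hpos)
          have h5 := (hz' i hi').1 hpos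
          rw [abs_of_nonneg hpos]
          nlinarith
      have h4 : Φ (v n) (y - z) ≤ ‖Φ (v n)‖ * 2 := by
        refine (le_abs_self _).trans (((Φ (v n)).le_opNorm _).trans ?_)
        refine mul_le_mul_of_nonneg_left ?_ (norm_nonneg _)
        have := norm_sub_le y z
        linarith
      rw [hv n, mul_one] at h3
      linarith
    · obtain ⟨x, hx, htree⟩ := tree hΦ hR0.le W hW hst h0
      set δ := dl Φ W with hδ
      obtain ⟨H, hH1, hH2⟩ := average x (δ / (2 * R)) (fun N σ => by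
        obtain ⟨v, hv, hj⟩ := htree N σ
        refine ⟨R⁻¹ • Φ v, ?_, fun j hjN => ?_⟩
        · rw [norm_smul, norm_inv, Real.norm_of_nonneg hR0.le, inv_mul_le_one₀ hR0]
          have := hΦ v
          rwa [hv, mul_one] at this
        · have h1 := hj j hjN
          rw [smul_apply, smul_eq_mul]
          have h2 : δ / 2 ≤ sg (σ j) * Φ v (x j) := by
            rw [abs_le] at h1
            have h3 := sg_sq (σ j)
            rcases Bool.eq_false_or_eq_true (σ j) with hb | hb <;> rw [hb] at h1 ⊢ <;>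
              simp only [sg, if_true, if_false, Bool.false_eq_true] at h1 ⊢ <;> linarith [h1.1, h1.2]
          have h3 : sg (σ j) * (R⁻¹ * Φ v (x j)) = (sg (σ j) * Φ v (x j)) / R := by
            field_simp
          rw [h3, div_le_div_iff₀ (by positivity) hR0]
          nlinarith)
      have hκ : 0 < δ / (2 * R) := by positivity
      refine normalize H (δ / (2 * R)) hκ (fun n => ?_) hH2
      refine (hH1 n).trans ((le_abs_self _).trans (((H n).le_opNorm _).trans ?_))
      exact mul_le_of_le_one_right (norm_nonneg _) (hx n)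
  · -- differences
    refine normalize (fun n => g (φ (n + 1)) - g (φ n)) 1 one_pos (fun n => ?_) ?_
    · exact hsep (fun h => by
        have := hφ.injective h
        omega)
    · refine extend_ball _ fun y hy => ?_
      obtain ⟨c, hc⟩ := hconv y hy
      have h1 := (hc.comp (tendsto_add_atTop_nat 1)).sub hc
      rw [sub_self] at h1
      exact h1

end real

/-- The Josefson-Nissenzweig theorem. -/
theorem jn {𝕜 : Type*} [RCLike 𝕜] {E : Type*} [NormedAddCommGroup E] [NormedSpace 𝕜 E]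
    (h : ¬ FiniteDimensional 𝕜 E) :
    ∃ h : ℕ → (E →L[𝕜] 𝕜), (∀ n, ‖h n‖ = 1) ∧ ∀ y, Tendsto (fun n => h n y) atTop (𝓝 0) := by
  let _ : NormedSpace ℝ E := NormedSpace.restrictScalars ℝ 𝕜 E
  have : IsScalarTower ℝ 𝕜 E := ⟨fun r c x => by
    change ((r • c) : 𝕜) • x = ((algebraMap ℝ 𝕜) r) • (c • x)
    rw [smul_smul, Algebra.smul_def]⟩
  have h' : ¬ FiniteDimensional ℝ E := by
    intro hf
    exact h (FiniteDimensional.right ℝ 𝕜 E)
  obtain ⟨f, hf1, hf2⟩ := jn_real h'
  refine ⟨fun n => StrongDual.extendRCLike (f n), fun n => ?_, fun y => ?_⟩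
  · rw [StrongDual.norm_extendRCLike, hf1]
  · have h1 : Tendsto (fun n => ((f n y : ℝ) : 𝕜) - (RCLike.I : 𝕜) * ((f n ((RCLike.I : 𝕜) • y) : ℝ) : 𝕜)) atTop
        (𝓝 (((0 : ℝ) : 𝕜) - (RCLike.I : 𝕜) * ((0 : ℝ) : 𝕜))) :=
      ((RCLike.continuous_ofReal.tendsto 0).comp (hf2 y)).sub
        (((RCLike.continuous_ofReal.tendsto 0).comp (hf2 _)).const_mul _)
    simp only [RCLike.ofReal_zero, mul_zero, sub_zero] at h1
    refine h1.congr fun n => ?_
    rw [StrongDual.extendRCLike_apply]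

end Pool.Agent.Q198.JN
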