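import Pool.Agent.Q198.JN.Blocks

set_option autoImplicit false

/-!
# The tree construction in the proof of the Josefson-Nissenzweig theorem
-/

namespace Pool.Agent.Q198.JN

open Finset Filter Topology Pool.Agent.Helper902.NA

variable {E : Type*} [NormedAddCommGroup E] [NormedSpace ℝ E]
  (Φ : (ℕ →₀ ℝ) →ₗ[ℝ] (E →L[ℝ] ℝ))

/-- `t` is an asymptotic pointwise bound of the functionals of `W`. -/
def Bd (W : Submodule ℝ (ℕ →₀ ℝ)) (t : ℝ) : Prop :=
  ∀ x : E, ‖x‖ ≤ 1 → ∀ η : ℝ, 0 < η → ∃ M, ∀ v ∈ W, st_tl M v → st_q v ≤ 1 → |Φ v x| ≤ t + η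

/-- The best asymptotic bound. -/
noncomputable def dl (W : Submodule ℝ (ℕ →₀ ℝ)) : ℝ := sInf {t | 0 ≤ t ∧ Bd Φ W t}

variable {Φ} {C : ℝ} (hC : ∀ v, ‖Φ v‖ ≤ C * st_q v)

include hC in
theorem Bd_C (hC0 : 0 ≤ C) (W : Submodule ℝ (ℕ →₀ ℝ)) : Bd Φ W C := by
  intro x hx η hη
  refine ⟨0, fun v _ _ hq => ?_⟩
  have h1 : |Φ v x| ≤ ‖Φ v‖ * ‖x‖ := (Φ v).le_opNorm x
  have h2 := hC v
  have h3 : ‖Φ v‖ * ‖x‖ ≤ ‖Φ v‖ := by nlinarith [norm_nonneg (Φ v)]
  have h4 : C * st_q v ≤ C := by nlinarith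
  linarith

theorem dl_nonneg (W : Submodule ℝ (ℕ →₀ ℝ)) : 0 ≤ dl Φ W :=
  Real.sInf_nonneg fun _ h => h.1

theorem dl_le {W : Submodule ℝ (ℕ →₀ ℝ)} {t : ℝ} (ht : 0 ≤ t) (h : Bd Φ W t) : dl Φ W ≤ t :=
  csInf_le ⟨0, fun _ h => h.1⟩ ⟨ht, h⟩

include hC in
theorem Bd_dl (hC0 : 0 ≤ C) (W : Submodule ℝ (ℕ →₀ ℝ)) : Bd Φ W (dl Φ W) := by
  intro x hx η hη
  have hne : Set.Nonempty {t | 0 ≤ t ∧ Bd Φ W t} := ⟨C, hC0, Bd_C hC hC0 W⟩
  obtain ⟨t, ⟨_, ht⟩, hlt⟩ := exists_lt_of_csInf_lt hne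
    (show sInf {t | 0 ≤ t ∧ Bd Φ W t} < dl Φ W + η / 2 by
      change dl Φ W < _; linarith)
  obtain ⟨M, hM⟩ := ht x hx (η / 2) (by linarith)
  refine ⟨M, fun v h1 h2 h3 => (hM v h1 h2 h3).trans ?_⟩
  linarith

theorem Bd_mono {W' W : Submodule ℝ (ℕ →₀ ℝ)} (hs : Sub W' W) {t : ℝ} (h : Bd Φ W t) :
    Bd Φ W' t := by
  intro x hx η hη
  obtain ⟨M, hM⟩ := h x hx η hη
  obtain ⟨M', hM'⟩ := hs
  exact ⟨max M M', fun v h1 h2 h3 => hM v (hM' v h1 (st_tl_mono (le_max_right _ _) h2))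
    (st_tl_mono (le_max_left _ _) h2) h3⟩

include hC in
theorem exists_stable (hC0 : 0 ≤ C) : ∃ W : Submodule ℝ (ℕ →₀ ℝ), st_Big W ∧
    ∀ W' : Submodule ℝ (ℕ →₀ ℝ), st_Big W' → Sub W' W → dl Φ W' = dl Φ W := by
  have htop : st_Big (⊤ : Submodule ℝ (ℕ →₀ ℝ)) := by
    intro M
    refine ⟨Finsupp.single M 1, trivial, fun i hi => ?_, ?_⟩
    · rw [Finsupp.single_apply, if_neg (by omega)]
    · have h : st_hd (M + 1) (Finsupp.single M (1 : ℝ)) := by
        intro i hi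
        rw [Finsupp.single_apply, if_neg (by omega)]
      rw [st_q_eq h, Finset.sum_eq_single M]
      · simp
      · intro i _ hi
        rw [Finsupp.single_apply, if_neg (Ne.symm hi), abs_zero]
      · intro h; exact absurd (Finset.mem_range.2 (Nat.lt_succ_self M)) h
  obtain ⟨u, -, hu⟩ := stable (P := {W : Submodule ℝ (ℕ →₀ ℝ) // st_Big W})
    (fun a b => Sub a.1 b.1) (fun a => Sub.refl _) (fun a b c h h' => h.trans h')
    (fun u hu => by
      obtain ⟨V, hV, hVs⟩ := big_seq (fun n => (u n).1) (fun n => (u n).2) hu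
      exact ⟨⟨V, hV⟩, hVs⟩)
    (fun a => dl Φ a.1) (fun a b h => by
      refine dl_le (dl_nonneg _) (Bd_mono h (Bd_dl hC hC0 _)))
    (fun a => dl_nonneg _) ⟨⊤, htop⟩
  exact ⟨u.1, u.2, fun W' hW' hs => hu ⟨W', hW'⟩ hs⟩

include hC in
/-- Case `δ = 0`: a pointwise null sequence of normalized blocks. -/
theorem null_of_dl_zero (hC0 : 0 ≤ C) (W : Submodule ℝ (ℕ →₀ ℝ)) (hW : st_Big W)
    (h0 : dl Φ W = 0) : ∃ v : ℕ → (ℕ →₀ ℝ), (∀ n, st_q (v n) = 1) ∧
      ∀ x : E, Tendsto (fun n => Φ (v n) x) atTop (𝓝 0) := by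
  choose v hv ht hq using hW
  refine ⟨v, hq, fun x => ?_⟩
  -- reduce to norm at most one
  have key : ∀ y : E, ‖y‖ ≤ 1 → Tendsto (fun n => Φ (v n) y) atTop (𝓝 0) := by
    intro y hy
    rw [Metric.tendsto_atTop]
    intro ε hε
    obtain ⟨M, hM⟩ := Bd_dl hC hC0 W y hy (ε / 2) (by linarith)
    refine ⟨M, fun n hn => ?_⟩
    have := hM (v n) (hv n) (st_tl_mono hn (ht n)) (hq n).le
    rw [Real.dist_eq, sub_zero]
    rw [h0] at this
    linarith
  have h1 := (key ((‖x‖ + 1)⁻¹ • x) (by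
    rw [norm_smul, norm_inv, Real.norm_of_nonneg (by positivity), inv_mul_le_one₀ (by positivity)]
    linarith)).const_mul (‖x‖ + 1)
  rw [mul_zero] at h1
  refine h1.congr fun n => ?_
  rw [map_smul, smul_eq_mul, ← mul_assoc, mul_inv_cancel₀ (by positivity), one_mul]

/-- Sign attached to a Boolean. -/
def sg (b : Bool) : ℝ := if b then 1 else -1

theorem sg_abs (b : Bool) : |sg b| = 1 := by cases b <;> simp [sg]

theorem sg_sq (b : Bool) : sg b * sg b = 1 := by cases b <;> simp [sg]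

/-- The induction hypothesis of the tree construction. -/
def Good (Φ : (ℕ →₀ ℝ) →ₗ[ℝ] (E →L[ℝ] ℝ)) (W : Submodule ℝ (ℕ →₀ ℝ)) (δ : ℝ) (n : ℕ)
    (x : ℕ → E) : Prop :=
  ∀ (σ : ℕ → Bool) (M : ℕ), ∃ v ∈ W, st_tl M v ∧ st_q v = 1 ∧
    ∀ j, j < n → |Φ v (x j) - sg (σ j) * δ| ≤ δ / 2

include hC in
theorem tree_step (hC0 : 0 ≤ C) (W : Submodule ℝ (ℕ →₀ ℝ)) (hW : st_Big W)
    (hst : ∀ W' : Submodule ℝ (ℕ →₀ ℝ), st_Big W' → Sub W' W → dl Φ W' = dl Φ W)
    (hδ : 0 < dl Φ W) (n : ℕ) (x : ℕ → E) (hx : Good Φ W (dl Φ W) n x) :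
    ∃ y : E, ‖y‖ ≤ 1 ∧ Good Φ W (dl Φ W) (n + 1) (Function.update x n y) := by
  classical
  set δ : ℝ := dl Φ W with hδdef
  -- patterns
  let Pat : Type := (Fin n → Bool) × Bool
  let K : ℕ := Fintype.card Pat
  have hK : 0 < K := Fintype.card_pos
  have hK' : (0 : ℝ) < K := by exact_mod_cast hK
  let e : Fin K ≃ Pat := (Fintype.equivFin Pat).symm
  let pat : ℕ → Pat := fun k => e ⟨k % K, Nat.mod_lt _ hK⟩
  let ext : (Fin n → Bool) → (ℕ → Bool) := fun τ j => if h : j < n then τ ⟨j, h⟩ else true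
  obtain ⟨v, L, hv, h1, h2, h3⟩ := exists_blocks
    (fun k v => v ∈ W ∧ st_q v = 1 ∧ ∀ j, j < n → |Φ v (x j) - sg (ext (pat k).1 j) * δ| ≤ δ / 2)
    (fun k M => by
      obtain ⟨v, hvW, ht, hq, hj⟩ := hx (ext (pat k).1) M
      exact ⟨v, ht, hvW, hq, hj⟩)
  have hvW : ∀ k, v k ∈ W := fun k => (hv k).1
  have hvq : ∀ k, st_q (v k) = 1 := fun k => (hv k).2.1
  -- the averages
  let s : ℕ → ℝ := fun k => sg (pat k).2
  let u : ℕ → (ℕ →₀ ℝ) := fun t => ∑ i ∈ range K, ((K : ℝ)⁻¹ * s (t * K + i)) • v (t * K + i)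
  have hshift1 : ∀ t j, st_tl (L (t * K + j)) (v (t * K + j)) := fun t j => h1 _
  have hshift2 : ∀ t j, st_hd (L (t * K + (j + 1))) (v (t * K + j)) := fun t j => h2 _
  have hshift3 : ∀ t j, L (t * K + j) ≤ L (t * K + (j + 1)) := fun t j => (h3 _).le
  have huq : ∀ t, st_q (u t) = 1 := by
    intro t
    have := st_sum_q (v := fun j => v (t * K + j)) (L := fun j => L (t * K + j)) (hshift1 t)
      (hshift2 t) (hshift3 t) (fun j => hvq _) K (fun i => (K : ℝ)⁻¹ * s (t * K + i))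
    rw [this]
    have h4 : ∀ i ∈ range K, |(K : ℝ)⁻¹ * s (t * K + i)| = (K : ℝ)⁻¹ := by
      intro i _
      rw [abs_mul, sg_abs, mul_one, abs_of_pos (inv_pos.2 hK')]
    rw [Finset.sum_congr rfl h4, Finset.sum_const, card_range, nsmul_eq_mul]
    exact mul_inv_cancel₀ hK'.ne'
  have hutl : ∀ t, st_tl (L (t * K)) (u t) := by
    intro t i hi
    simp only [u]
    rw [Finsupp.finsetSum_apply]
    apply Finset.sum_eq_zero
    intro j _
    rw [Finsupp.smul_apply, h1 (t * K + j) i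
      (lt_of_lt_of_le hi ((L_mono h3).monotone (Nat.le_add_right _ _))), smul_zero]
  have huhd : ∀ t, st_hd (L ((t + 1) * K)) (u t) := by
    intro t
    have := st_sum_hd (v := fun j => v (t * K + j)) (L := fun j => L (t * K + j))
      (hshift2 t) (hshift3 t) K (fun i => (K : ℝ)⁻¹ * s (t * K + i))
    have e2 : (t + 1) * K = t * K + K := by ring
    rw [e2]
    exact this
  have hL3 : ∀ t, L (t * K) < L ((t + 1) * K) := by
    intro t
    apply L_mono h3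
    have e2 : (t + 1) * K = t * K + K := by ring
    omega
  let W' : Submodule ℝ (ℕ →₀ ℝ) := Submodule.span ℝ (Set.range u)
  have huW : ∀ t, u t ∈ W := fun t =>
    Submodule.sum_mem _ fun i _ => Submodule.smul_mem _ _ (hvW _)
  have hW'W : Sub W' W := by
    refine ⟨0, fun w hw _ => ?_⟩
    have : W' ≤ W := by
      rw [Submodule.span_le]
      rintro _ ⟨t, rfl⟩
      exact huW t
    exact this hw
  have hW'big : st_Big W' := by
    intro M
    refine ⟨u M, Submodule.subset_span ⟨M, rfl⟩, ?_, huq M⟩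
    apply st_tl_mono _ (hutl M)
    calc M ≤ M * K := Nat.le_mul_of_pos_right _ hK
      _ ≤ L (M * K) := (L_mono h3).id_le _
  have hdW' := hst W' hW'big hW'W
  -- a point with large values on the averages
  set η : ℝ := δ / (8 * K) with hη
  have hη0 : 0 < η := by positivity
  have hnot : ¬ Bd Φ W' (δ - η) := by
    intro hcon
    have h4 : 0 ≤ δ - η := by
      have : η ≤ δ := by
        rw [hη]
        apply div_le_self hδ.le
        have : (1 : ℝ) ≤ K := by exact_mod_cast hK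
        linarith
      linarith
    have := dl_le h4 hcon
    rw [hdW'] at this
    linarith
  obtain ⟨y, hy, η', hη', hyM⟩ : ∃ y : E, ‖y‖ ≤ 1 ∧ ∃ η' : ℝ, 0 < η' ∧
      ∀ M, ∃ w ∈ W', st_tl M w ∧ st_q w ≤ 1 ∧ δ - η + η' < |Φ w y| := by
    unfold Bd at hnot
    push Not at hnot
    obtain ⟨y, hy, η', hη', h⟩ := hnot
    exact ⟨y, hy, η', hη', h⟩
  have hut : ∀ T : ℕ, ∃ t, T ≤ t ∧ δ - η < |Φ (u t) y| := by
    intro T
    obtain ⟨w, hw, ht, hq, hlt⟩ := hyM (L (T * K))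
    obtain ⟨N, b, rfl⟩ := st_mem_span hw
    have hz := coeff_zero (v := u) (L := fun t => L (t * K)) hutl huhd hL3 huq N b T ht
    have hqs := st_sum_q (v := u) (L := fun t => L (t * K)) hutl huhd (fun t => (hL3 t).le) huq N b
    rw [hqs] at hq
    by_contra hcon
    push Not at hcon
    have h5 : |Φ (∑ j ∈ range N, b j • u j) y| ≤ δ - η := by
      rw [map_sum, _root_.sum_apply]
      refine (Finset.abs_sum_le_sum_abs _ _).trans ?_
      have h6 : ∀ j ∈ range N, |Φ (b j • u j) y| ≤ |b j| * (δ - η) := by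
        intro j hj
        rw [map_smul, smul_apply, smul_eq_mul, abs_mul]
        rcases lt_or_ge j T with h | h
        · rw [hz j (Finset.mem_range.1 hj) h]; simp
        · exact mul_le_mul_of_nonneg_left (hcon j h) (abs_nonneg _)
      refine (Finset.sum_le_sum h6).trans ?_
      rw [← Finset.sum_mul]
      have h7 : 0 ≤ δ - η := (abs_nonneg _).trans (hcon T le_rfl)
      nlinarith
    linarith
  -- sign of the point
  obtain ⟨z, hz, hzt⟩ : ∃ z : E, ‖z‖ ≤ 1 ∧ ∀ T : ℕ, ∃ t, T ≤ t ∧ δ - η < Φ (u t) z := by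
    by_cases hpos : ∀ T : ℕ, ∃ t, T ≤ t ∧ δ - η < Φ (u t) y
    · exact ⟨y, hy, hpos⟩
    · push Not at hpos
      obtain ⟨T₀, hT₀⟩ := hpos
      refine ⟨-y, by rwa [norm_neg], fun T => ?_⟩
      obtain ⟨t, ht, hlt⟩ := hut (max T T₀)
      refine ⟨t, (le_max_left _ _).trans ht, ?_⟩
      have h4 := hT₀ t ((le_max_right _ _).trans ht)
      rw [map_neg]
      rcases abs_choice (Φ (u t) y) with h | h
      · rw [h] at hlt; linarith
      · rw [h] at hlt; exact hlt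
  refine ⟨z, hz, fun σ M => ?_⟩
  obtain ⟨M₀, hM₀⟩ := Bd_dl hC hC0 W z hz η hη0
  -- the pattern of `σ`
  let p : Pat := (fun j => σ j, σ n)
  let i₀ : Fin K := e.symm p
  obtain ⟨t, ht, hlt⟩ := hzt (max M M₀)
  have htM : M ≤ t := (le_max_left _ _).trans ht
  have htM₀ : M₀ ≤ t := (le_max_right _ _).trans ht
  have htK : t ≤ t * K := Nat.le_mul_of_pos_right _ hK
  have hLt : ∀ i, t ≤ L (t * K + i) := fun i =>
    (htK.trans (Nat.le_add_right _ _)).trans ((L_mono h3).id_le _)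
  have hup : ∀ i, s (t * K + i) * Φ (v (t * K + i)) z ≤ δ + η := by
    intro i
    have h4 := hM₀ (v (t * K + i)) (hvW _) (st_tl_mono (htM₀.trans (hLt i)) (h1 _)) (hvq _).le
    refine (le_abs_self _).trans ?_
    rw [abs_mul, sg_abs, one_mul]
    exact h4
  -- the average
  have hav : Φ (u t) z = (K : ℝ)⁻¹ * ∑ i ∈ range K, s (t * K + i) * Φ (v (t * K + i)) z := by
    simp only [u]
    rw [map_sum, _root_.sum_apply, Finset.mul_sum]
    refine Finset.sum_congr rfl fun i _ => ?_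
    rw [map_smul, smul_apply, smul_eq_mul, mul_assoc]
  have hlow : ∀ i, i < K → δ - δ / 2 ≤ s (t * K + i) * Φ (v (t * K + i)) z := by
    intro i hi
    have h4 : ∑ i ∈ range K, s (t * K + i) * Φ (v (t * K + i)) z
        ≤ s (t * K + i) * Φ (v (t * K + i)) z + ((K : ℝ) - 1) * (δ + η) := by
      rw [← Finset.add_sum_erase _ _ (Finset.mem_range.2 hi)]
      apply add_le_add le_rfl
      refine (Finset.sum_le_card_nsmul _ _ (δ + η) fun j _ => hup j).trans ?_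
      rw [Finset.card_erase_of_mem (Finset.mem_range.2 hi), card_range, nsmul_eq_mul,
        Nat.cast_sub hK, Nat.cast_one]
    rw [hav] at hlt
    have h5 : (K : ℝ) * (δ - η) < ∑ i ∈ range K, s (t * K + i) * Φ (v (t * K + i)) z := by
      have := mul_lt_mul_of_pos_left hlt hK'
      rwa [← mul_assoc, mul_inv_cancel₀ hK'.ne', one_mul] at this
    have h6 : (K : ℝ) * η = δ / 8 := by rw [hη]; field_simp
    have h7 : η ≤ δ / 8 := by
      have : (1 : ℝ) ≤ K := by exact_mod_cast hK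
      nlinarith
    nlinarith
  refine ⟨v (t * K + i₀), hvW _, st_tl_mono (htM.trans (hLt i₀)) (h1 _), hvq _, ?_⟩
  have hpat : pat (t * K + i₀) = p := by
    simp only [pat]
    have : (⟨(t * K + i₀) % K, Nat.mod_lt _ hK⟩ : Fin K) = i₀ := by
      ext
      simp only
      rw [Nat.add_comm, Nat.add_mul_mod_self_right]
      exact Nat.mod_eq_of_lt i₀.2
    rw [this]
    exact e.apply_symm_apply p
  intro j hj
  rcases Nat.lt_succ_iff_lt_or_eq.1 hj with h | h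
  · rw [Function.update_of_ne h.ne]
    have h4 := (hv (t * K + i₀)).2.2 j h
    rw [hpat] at h4
    have h5 : ext p.1 j = σ j := by simp only [ext, p, dif_pos h]
    rwa [h5] at h4
  · subst h
    rw [Function.update_self]
    have h4 := hlow i₀ i₀.2
    have h5 := hup i₀
    have h6 : s (t * K + i₀) = sg (σ j) := by simp only [s, hpat, p]
    rw [h6] at h4 h5
    have h7 : |Φ (v (t * K + i₀)) z - sg (σ j) * δ|
        = |sg (σ j) * Φ (v (t * K + i₀)) z - δ| := by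
      have : sg (σ j) * Φ (v (t * K + i₀)) z - δ
          = sg (σ j) * (Φ (v (t * K + i₀)) z - sg (σ j) * δ) := by
        rw [mul_sub, ← mul_assoc, sg_sq, one_mul]
      rw [this, abs_mul, sg_abs, one_mul]
    rw [h7, abs_le]
    have h8 : η ≤ δ / 2 := by
      have h9 : (1 : ℝ) ≤ K := by exact_mod_cast hK
      have h6 : (K : ℝ) * η = δ / 8 := by rw [hη]; field_simp
      nlinarith
    constructor <;> linarith

include hC in
/-- The infinite tree. -/
theorem tree (hC0 : 0 ≤ C) (W : Submodule ℝ (ℕ →₀ ℝ)) (hW : st_Big W)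
    (hst : ∀ W' : Submodule ℝ (ℕ →₀ ℝ), st_Big W' → Sub W' W → dl Φ W' = dl Φ W)
    (hδ : 0 < dl Φ W) :
    ∃ x : ℕ → E, (∀ n, ‖x n‖ ≤ 1) ∧ ∀ (N : ℕ) (σ : ℕ → Bool), ∃ v : ℕ →₀ ℝ, st_q v = 1 ∧
      ∀ j, j < N → |Φ v (x j) - sg (σ j) * dl Φ W| ≤ dl Φ W / 2 := by
  classical
  -- sequence of partial constructions
  let St : Type _ := {q : ℕ × (ℕ → E) // Good Φ W (dl Φ W) q.1 q.2 ∧ ∀ j, ‖q.2 j‖ ≤ 1}
  have hstep : ∀ q : St, ∃ q' : St, q'.1.1 = q.1.1 + 1 ∧ ∀ j, j < q.1.1 → q'.1.2 j = q.1.2 j := by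
    rintro ⟨⟨n, x⟩, hg, hn⟩
    obtain ⟨y, hy, hg'⟩ := tree_step hC hC0 W hW hst hδ n x hg
    refine ⟨⟨(n + 1, Function.update x n y), hg', fun j => ?_⟩, rfl, fun j hj => ?_⟩
    · by_cases h : j = n
      · subst h; simpa using hy
      · simp only [Function.update_of_ne h]; exact hn j
    · exact Function.update_of_ne hj.ne _ _
  choose nx hnx1 hnx2 using hstep
  let q₀ : St := ⟨(0, fun _ => 0), fun σ M => by
    obtain ⟨v, hv, ht, hq⟩ := hW M
    exact ⟨v, hv, ht, hq, fun j hj => absurd hj (Nat.not_lt_zero j)⟩, fun _ => by simp⟩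
  let q : ℕ → St := fun n => Nat.rec q₀ (fun _ w => nx w) n
  have hq : ∀ n, q (n + 1) = nx (q n) := fun n => rfl
  have hq1 : ∀ n, (q n).1.1 = n := by
    intro n
    induction n with
    | zero => rfl
    | succ n ih => rw [hq, hnx1, ih]
  have hq2 : ∀ n k j, j < n → (q (n + k)).1.2 j = (q n).1.2 j := by
    intro n k j hj
    induction k with
    | zero => rfl
    | succ k ih =>
      rw [← ih]
      have := hnx2 (q (n + k)) j (by rw [hq1]; omega)
      exact this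
  refine ⟨fun n => (q (n + 1)).1.2 n, fun n => (q (n + 1)).2.2 n, fun N σ => ?_⟩
  obtain ⟨v, -, -, hvq, hv⟩ := (q N).2.1 σ 0
  refine ⟨v, hvq, fun j hj => ?_⟩
  have h1 := hv j (by rw [hq1]; exact hj)
  have h2 : (q (j + 1)).1.2 j = (q N).1.2 j := by
    obtain ⟨k, hk⟩ := Nat.exists_eq_add_of_le (Nat.succ_le_of_lt hj)
    have := hq2 (j + 1) k j (Nat.lt_succ_self j)
    rw [← this]
    congr 3
    rw [hk]
  simp only
  rw [h2]
  exact h1

end Pool.Agent.Q198.JN
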